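import Mathlib

/-! Exterior algebra in four coordinates. -/

noncomputable section

namespace Pool.Agent.Lib.MP_399f8e_an.Gg

/-- the four-form `p ∧ q ∧ Ω`, where `Ω i j = M i j - M j i` -/
def w4 (p q : Fin 4 → ℝ) (M : Fin 4 → Fin 4 → ℝ) : ℝ :=
  (p 0 * q 1 - p 1 * q 0) * (M 2 3 - M 3 2) - (p 0 * q 2 - p 2 * q 0) * (M 1 3 - M 3 1)
    + (p 0 * q 3 - p 3 * q 0) * (M 1 2 - M 2 1) + (p 1 * q 2 - p 2 * q 1) * (M 0 3 - M 3 0)
    - (p 1 * q 3 - p 3 * q 1) * (M 0 2 - M 2 0) + (p 2 * q 3 - p 3 * q 2) * (M 0 1 - M 1 0)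

/-- the determinant -/
def d4 (p q r s : Fin 4 → ℝ) : ℝ := w4 p q fun i j => r i * s j

/-- basis vectors -/
def dl (i : Fin 4) : Fin 4 → ℝ := fun j => if j = i then 1 else 0

theorem det_eq (p q r s : Fin 4 → ℝ) : (Matrix.of ![p, q, r, s]).det = d4 p q r s := by
  simp [Matrix.det_succ_row_zero, Fin.sum_univ_succ, d4, w4, Fin.succAbove]
  ring

theorem w4_congr (p q : Fin 4 → ℝ) {M M' : Fin 4 → Fin 4 → ℝ}
    (h : ∀ i j, M i j - M j i = M' i j - M' j i) : w4 p q M = w4 p q M' := by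
  simp only [w4, h]

theorem w4_zero (q : Fin 4 → ℝ) (M : Fin 4 → Fin 4 → ℝ) {p : Fin 4 → ℝ} (h : ∀ i, p i = 0) :
    w4 p q M = 0 := by
  simp [w4, h]

theorem contr (p a l Y r : Fin 4 → ℝ) (M : Fin 4 → Fin 4 → ℝ) (hp : ∑ j, p j * Y j = 0)
    (ha : ∑ j, a j * Y j = 1) (hr : ∀ k, r k = ∑ j, Y j * (M j k - M k j)) :
    w4 p l M = (∑ j, l j * Y j) * w4 p a M - d4 p a l r := by
  have key : (∑ j, a j * Y j) * w4 p l M
      = (∑ j, l j * Y j) * w4 p a M - d4 p a l r + (∑ j, p j * Y j) * w4 a l M := by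
    simp only [d4, w4, hr, Fin.sum_univ_four]
    ring
  rw [ha, hp] at key
  linarith

theorem vol_eq (p a x Y : Fin 4 → ℝ) (c : ℝ) {M : Fin 4 → Fin 4 → ℝ}
    (h : ∀ i j, M i j - M j i = c * d4 x Y (dl i) (dl j)) :
    w4 p a M = c * ((∑ j, p j * x j) * (∑ j, a j * Y j) - (∑ j, p j * Y j) * ∑ j, a j * x j) := by
  simp only [w4, h]
  simp [d4, w4, dl, Fin.sum_univ_four]
  ring

theorem div_eq (p a b : Fin 4 → ℝ) (P M N : Fin 4 → Fin 4 → ℝ) (h : ∀ i j, P i j = P j i) :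
    ∑ i, (d4 (dl i) (P i) a b + d4 (dl i) p (M i) b + d4 (dl i) p a (N i))
      = w4 p a N - w4 p b M := by
  simp [Fin.sum_univ_four, d4, w4, dl]
  rw [h 1 0, h 2 0, h 3 0, h 2 1, h 3 1, h 3 2]
  ring

theorem d4_sum (c p a b : Fin 4 → ℝ) :
    d4 c p a b = ∑ j, ∑ k, ∑ l, d4 c (dl j) (dl k) (dl l) * (p j * a k * b l) := by
  simp [Fin.sum_univ_four, d4, w4, dl]
  ring

theorem d4_deriv (c : Fin 4 → ℝ) {P A B : ℝ → Fin 4 → ℝ} {P' A' B' : Fin 4 → ℝ} {t : ℝ}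
    (hP : ∀ j, HasDerivAt (fun s => P s j) (P' j) t) (hA : ∀ j, HasDerivAt (fun s => A s j) (A' j) t)
    (hB : ∀ j, HasDerivAt (fun s => B s j) (B' j) t) :
    HasDerivAt (fun s => d4 c (P s) (A s) (B s))
      (d4 c P' (A t) (B t) + d4 c (P t) A' (B t) + d4 c (P t) (A t) B') t := by
  have h := HasDerivAt.fun_sum (u := Finset.univ) fun j _ =>
    HasDerivAt.fun_sum (u := Finset.univ) fun k _ => HasDerivAt.fun_sum (u := Finset.univ) fun l _ =>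
      (((hP j).fun_mul (hA k)).fun_mul (hB l)).const_mul (d4 c (dl j) (dl k) (dl l))
  have e : (fun s => d4 c (P s) (A s) (B s))
      = fun s => ∑ j, ∑ k, ∑ l, d4 c (dl j) (dl k) (dl l) * (P s j * A s k * B s l) :=
    funext fun s => d4_sum _ _ _ _
  rw [e, d4_sum c P', d4_sum c (P t) A', d4_sum c (P t) (A t) B']
  refine h.congr_deriv ?_
  simp only [← Finset.sum_add_distrib]
  refine Finset.sum_congr rfl fun j _ => Finset.sum_congr rfl fun k _ =>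
    Finset.sum_congr rfl fun l _ => ?_
  ring

theorem w4_le {p q : Fin 4 → ℝ} {M : Fin 4 → Fin 4 → ℝ} {P Q m : ℝ} (hp : ∀ i, |p i| ≤ P)
    (hq : ∀ i, |q i| ≤ Q) (hM : ∀ i j, |M i j| ≤ m) : |w4 p q M| ≤ 24 * P * Q * m := by
  have hP : 0 ≤ P := (abs_nonneg _).trans (hp 0)
  have hQ : 0 ≤ Q := (abs_nonneg _).trans (hq 0)
  have h1 : ∀ i j, |p i * q j| ≤ P * Q := fun i j => by
    rw [abs_mul]; exact mul_le_mul (hp i) (hq j) (abs_nonneg _) hP
  have h2 : ∀ i j k l, |(p i * q j - p j * q i) * (M k l - M l k)| ≤ 4 * P * Q * m := by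
    intro i j k l
    rw [abs_mul]
    have a1 : |p i * q j - p j * q i| ≤ 2 * (P * Q) :=
      (abs_sub _ _).trans (by linarith [h1 i j, h1 j i])
    have a2 : |M k l - M l k| ≤ 2 * m := (abs_sub _ _).trans (by linarith [hM k l, hM l k])
    exact (mul_le_mul a1 a2 (abs_nonneg _) (by positivity)).trans (le_of_eq (by ring))
  have b1 := abs_le.1 (h2 0 1 2 3)
  have b2 := abs_le.1 (h2 0 2 1 3)
  have b3 := abs_le.1 (h2 0 3 1 2)
  have b4 := abs_le.1 (h2 1 2 0 3)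
  have b5 := abs_le.1 (h2 1 3 0 2)
  have b6 := abs_le.1 (h2 2 3 0 1)
  unfold w4
  exact abs_le.2 ⟨by linarith [b1.1, b2.2, b3.1, b4.1, b5.2, b6.1],
    by linarith [b1.2, b2.1, b3.2, b4.2, b5.1, b6.2]⟩

theorem d4_le {p q r s : Fin 4 → ℝ} {P Q R S : ℝ} (hp : ∀ i, |p i| ≤ P) (hq : ∀ i, |q i| ≤ Q)
    (hr : ∀ i, |r i| ≤ R) (hs : ∀ i, |s i| ≤ S) : |d4 p q r s| ≤ 24 * P * Q * (R * S) :=
  w4_le hp hq fun i j => by
    rw [abs_mul]; exact mul_le_mul (hr i) (hs j) (abs_nonneg _) ((abs_nonneg _).trans (hr 0))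

theorem cont_w4 {Z : Type} [TopologicalSpace Z] {p q : Z → Fin 4 → ℝ}
    {M : Z → Fin 4 → Fin 4 → ℝ} (hp : ∀ i, Continuous fun z => p z i)
    (hq : ∀ i, Continuous fun z => q z i) (hM : ∀ i j, Continuous fun z => M z i j) :
    Continuous fun z => w4 (p z) (q z) (M z) := by
  unfold w4
  fun_prop

theorem cont_d4 {Z : Type} [TopologicalSpace Z] {p q r s : Z → Fin 4 → ℝ}
    (hp : ∀ i, Continuous fun z => p z i) (hq : ∀ i, Continuous fun z => q z i)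
    (hr : ∀ i, Continuous fun z => r z i) (hs : ∀ i, Continuous fun z => s z i) :
    Continuous fun z => d4 (p z) (q z) (r z) (s z) :=
  cont_w4 hp hq fun i j => (hr i).mul (hs j)

end Pool.Agent.Lib.MP_399f8e_an.Gg
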