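import Pool.Agent.Lib.MP_399f8e_an.Gg.Ident
import Pool.Agent.Lib.MP_399f8e_an.Dc.Form

/-! The growth inequality in the ambient space. -/

open Set Filter Topology Metric MeasureTheory
open scoped RealInnerProductSpace
open Pool.Agent.Lib.MP_399f8e_an.Rg Pool.Agent.Lib.MP_399f8e_an.Dc

noncomputable section

namespace Pool.Agent.Lib.MP_399f8e_an.Gg

variable {G : ℝ × E → E} {A B Y : E → E}

/-- a bound for the space derivative at time `t` -/
def Bd (G : ℝ × E → E) (t K : ℝ) : Prop :=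
  ∀ y v : E, 1 / 2 < ‖y‖ → ‖fderiv ℝ G (t, y) (0, v)‖ ≤ K * ‖v‖

theorem lin3 (p a l r : Fin 4 → ℝ) : d4 p a l r = ∑ i, l i * d4 p a (dl i) r := by
  simp [Fin.sum_univ_four, d4, w4, dl]
  ring

theorem lin4 (p a l r : Fin 4 → ℝ) : d4 p a l r = ∑ i, r i * d4 p a l (dl i) := by
  simp [Fin.sum_univ_four, d4, w4, dl]
  ring

theorem int3 (p a r : Fin 4 → ℝ) {l : ℝ → Fin 4 → ℝ} (hl : ∀ i, Continuous fun t => l t i)
    (T : ℝ) : ∫ t in (0 : ℝ)..T, d4 p a (l t) r = d4 p a (fun i => ∫ t in (0 : ℝ)..T, l t i) r := by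
  rw [lin3 _ _ fun i => ∫ t in (0 : ℝ)..T, l t i,
    intervalIntegral.integral_congr fun t _ => lin3 p a (l t) r,
    intervalIntegral.integral_finsetSum fun i _ => ((hl i).intervalIntegrable _ _).mul_const _]
  simp only [intervalIntegral.integral_mul_const]

theorem int4 (p a l : Fin 4 → ℝ) {r : ℝ → Fin 4 → ℝ} (hr : ∀ i, Continuous fun t => r t i)
    (T : ℝ) : ∫ t in (0 : ℝ)..T, d4 p a l (r t) = d4 p a l fun i => ∫ t in (0 : ℝ)..T, r t i := by
  rw [lin4 _ _ _ fun i => ∫ t in (0 : ℝ)..T, r t i,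
    intervalIntegral.integral_congr fun t _ => lin4 p a l (r t),
    intervalIntegral.integral_finsetSum fun i _ => ((hr i).intervalIntegrable _ _).mul_const _]
  simp only [intervalIntegral.integral_mul_const]

theorem w4_mul (c : ℝ) (p a : Fin 4 → ℝ) (M : Fin 4 → Fin 4 → ℝ) :
    c * w4 p a M = w4 p (fun i => c * a i) M := by
  simp only [w4]
  ring

theorem norm_ee (i : Fin 4) : ‖ee i‖ = 1 := by simp [ee]

theorem exists_perp (a b : E) : ∃ z : E, ‖z‖ = 1 ∧ ⟪a, z⟫ = 0 ∧ ⟪b, z⟫ = 0 := by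
  have h1 : (Submodule.span ℝ ({a, b} : Set E))ᗮ ≠ ⊥ := fun h =>
    FormAux.span_ne a b (Submodule.orthogonal_eq_bot_iff.1 h)
  obtain ⟨z, hz, h0⟩ := Submodule.exists_mem_ne_zero_of_ne_bot h1
  have h2 := (Submodule.mem_orthogonal _ _).1 hz
  refine ⟨‖z‖⁻¹ • z, norm_smul_inv_norm h0, ?_, ?_⟩
  · rw [inner_smul_right, h2 a (Submodule.subset_span (by simp)), mul_zero]
  · rw [inner_smul_right, h2 b (Submodule.subset_span (by simp)), mul_zero]

theorem seg_le {F : E → ℝ} (hF : Differentiable ℝ F) {C : ℝ}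
    (hC : ∀ q : E, 1 / 2 < ‖q‖ → ‖fderiv ℝ F q‖ ≤ C) {a z : E} (ha : 1 ≤ ‖a‖) (hz : ‖z‖ = 1)
    (haz : ⟪a, z⟫ = 0) : |F a - F z| ≤ C * (‖a‖ + 1) := by
  have h1 := (convex_segment (𝕜 := ℝ) a z).norm_image_sub_le_of_norm_fderiv_le (𝕜 := ℝ) (C := C)
    (fun q _ => hF q) (fun q hq => hC q (by
      obtain ⟨s, t, hs, ht, hst, rfl⟩ := hq
      have h2 : ‖s • a + t • z‖ ^ 2 = s ^ 2 * ‖a‖ ^ 2 + t ^ 2 := by
        rw [norm_add_sq_real, inner_smul_left, inner_smul_right, haz, norm_smul, norm_smul, hz]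
        simp [mul_pow]
      have h3 : 1 ≤ ‖a‖ ^ 2 := by nlinarith
      by_contra h4
      nlinarith [norm_nonneg (s • a + t • z), sq_nonneg (s - t), sq_nonneg s]))
    (right_mem_segment ℝ a z) (left_mem_segment ℝ a z)
  have h0 : 0 ≤ C := (norm_nonneg _).trans (hC z (by rw [hz]; norm_num))
  exact h1.trans (mul_le_mul_of_nonneg_left ((norm_sub_le _ _).trans (by rw [hz])) h0)

theorem exists_const (h : Core G A B Y) : ∃ C : ℝ, 0 < C ∧ (∀ x : E, ‖x‖ = 1 → ‖A x‖ ≤ C) ∧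
    (∀ x : E, ‖x‖ = 1 → ‖B x‖ ≤ C) ∧ (∀ (y : E) j, ‖y‖ < 2 → |fm G B 0 j y| ≤ C) ∧
    ∀ (y : E) i j, ‖y‖ < 2 → |pd (fm G B 0 j) i y| ≤ C := by
  have hc : Continuous fun y : E => (A y, B y, fun j => fm G B 0 j y,
      fun q : Fin 4 × Fin 4 => pd (fm G B 0 q.2) q.1 y) :=
    h.hA.continuous.prodMk (h.hB.continuous.prodMk
      ((continuous_pi fun j => (cd_fm h.hG h.hB 0 j).continuous).prodMk
        (continuous_pi fun q => cont_pd (cd_fm h.hG h.hB 0 q.2) q.1)))
  obtain ⟨C, hC⟩ := (isCompact_closedBall (0 : E) 2).exists_bound_of_continuousOn hc.continuousOn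
  have h1 : ∀ y : E, ‖y‖ ≤ 2 → ‖A y‖ ≤ C ∧ ‖B y‖ ≤ C ∧ ‖fun j => fm G B 0 j y‖ ≤ C ∧
      ‖fun q : Fin 4 × Fin 4 => pd (fm G B 0 q.2) q.1 y‖ ≤ C := fun y hy => by
    simpa only [norm_prod_le_iff] using hC y (mem_closedBall_zero_iff.2 hy)
  have h0 : 0 ≤ C := (norm_nonneg _).trans (h1 0 (by simp)).1
  refine ⟨C + 1, by linarith, fun x hx => ?_, fun x hx => ?_, fun y j hy => ?_, fun y i j hy => ?_⟩
  · linarith [(h1 x (by linarith)).1]
  · linarith [(h1 x (by linarith)).2.1]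
  · have := (norm_le_pi_norm _ j).trans (h1 y hy.le).2.2.1
    rw [Real.norm_eq_abs] at this
    linarith
  · have := (norm_le_pi_norm _ (i, j)).trans (h1 y hy.le).2.2.2
    rw [Real.norm_eq_abs] at this
    linarith

theorem pb_le (h : Core G A B Y) {D : E → E} {C t K : ℝ} (hD : ∀ x : E, ‖x‖ = 1 → ‖D x‖ ≤ C)
    (hK : Bd G t K) {y : E} (hy : 1 / 2 < ‖y‖) (v : E) :
    |pb G D (0, v) (t, y)| ≤ C * K * ‖v‖ := by
  have h1 := hD _ (h.nG t y hy)
  rw [mul_assoc]
  exact (abs_real_inner_le_norm _ _).trans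
    (mul_le_mul h1 (hK y v hy) (norm_nonneg _) ((norm_nonneg _).trans h1))

theorem fm_le (h : Core G A B Y) {D : E → E} {C t K : ℝ} (hD : ∀ x : E, ‖x‖ = 1 → ‖D x‖ ≤ C)
    (hK : Bd G t K) {y : E} (hy : 1 / 2 < ‖y‖) (i : Fin 4) : |fm G D t i y| ≤ C * K := by
  simpa [norm_ee, fm] using pb_le h hD hK hy (ee i)

theorem F_le (h : Core G A B Y) {C T K : ℝ} (hA : ∀ x : E, ‖x‖ = 1 → ‖A x‖ ≤ C) (hCK : 0 ≤ C * K)
    (hT : Bd G T K) (h0 : Bd G 0 K) {x : E} (hx : ‖x‖ = 1) (hF : Fw G A (fun _ => 1) T x = 0)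
    {y : E} (h1 : 1 < ‖y‖) (h2 : ‖y‖ < 2) : |Fw G A (fun _ => 1) T y| ≤ 10 * (C * K) ∧
      ∀ i, |pd (Fw G A (fun _ => 1) T) i y| ≤ 2 * (C * K) := by
  have hd := (has_Fw h.hG h.hA (θ := fun _ => 1) continuous_const T).1.differentiable one_ne_zero
  have hb : ∀ q : E, 1 / 2 < ‖q‖ → ‖fderiv ℝ (Fw G A (fun _ => 1) T) q‖ ≤ 2 * (C * K) :=
    fun q hq => ContinuousLinearMap.opNorm_le_bound _ (by linarith) fun v => by
      rw [h.dF T hq, Real.norm_eq_abs]
      exact (abs_sub _ _).trans (by linarith [pb_le h hA hT hq v, pb_le h hA h0 hq v])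
  obtain ⟨z, hz, a1, a2⟩ := exists_perp y x
  have b1 := abs_le.1 (seg_le hd hb h1.le hz a1)
  have b2 := abs_le.1 (seg_le hd hb hx.ge hz a2)
  rw [hF, hx] at b2
  refine ⟨abs_le.2 ⟨by nlinarith [b1.1, b2.2], by nlinarith [b1.2, b2.1]⟩, fun i => ?_⟩
  have h3 := (fderiv ℝ (Fw G A (fun _ => 1) T) y).le_of_opNorm_le (hb y (by linarith)) (ee i)
  rwa [norm_ee, mul_one] at h3

theorem step_t (h : Core G A B Y) (s T : ℝ) :
    T * H (fm G B 0) (fm G A 0)
      = H (fm G B s) (fun i y => Fw G A (fun _ => 1) T y * fm G B 0 i y)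
        - J fun y => d4 (pp y) (fun i => fm G B 0 i y) (fun i => ∫ t in (0 : ℝ)..T, fm G A t i y)
          fun k => fderiv ℝ (pb G B (0, ee k)) (s, y) (1, 0) := by
  have hF := (has_Fw h.hG h.hA (θ := fun _ => 1) continuous_const T).1
  have ha := cd_fm h.hG h.hB
  have cp : ∀ i, Continuous fun y => pp y i := fun i => (cd_pp i).continuous
  have cl : ∀ i, Continuous fun z : ℝ × E => fm G A z.1 i z.2 := fun i =>
    (cd_pb h.hG h.hA (0, ee i)).continuous
  have cr : ∀ k, Continuous fun y : E => fderiv ℝ (pb G B (0, ee k)) (s, y) (1, 0) := fun k =>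
    (cont_fd (cd_pb h.hG h.hB _) _).comp (continuous_const.prodMk continuous_id)
  have cu := (cd_pb h.hG h.hA (1, 0)).continuous
  have cL : ∀ i, Continuous fun y : E => ∫ t in (0 : ℝ)..T, fm G A t i y := fun i =>
    intervalIntegral.continuous_parametric_intervalIntegral_of_continuous'
      (f := fun y (t : ℝ) => fm G A t i y) ((cl i).comp continuous_swap) 0 T
  have e1 : T * H (fm G B 0) (fm G A 0) = ∫ _ in (0 : ℝ)..T, H (fm G B 0) (fm G A 0) := by simp
  rw [e1, intervalIntegral.integral_congr fun t _ => h.ident s t, J_swap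
    (f := fun t y => pb G A (1, 0) (t, y) *
        w4 (pp y) (fun i => fm G B 0 i y) (fun i j => pd (fm G B s j) i y)
      - d4 (pp y) (fun i => fm G B 0 i y) (fun i => fm G A t i y)
        fun k => fderiv ℝ (pb G B (0, ee k)) (s, y) (1, 0))
    ((cu.mul ((cont_H (ha 0) (ha s)).comp continuous_snd)).sub
      (cont_d4 (fun i => (cp i).comp continuous_snd)
        (fun i => (ha 0 i).continuous.comp continuous_snd) cl
        fun k => (cr k).comp continuous_snd)),
    stokes (ha s) fun i => hF.mul (ha 0 i), H, ← J_sub (cont_H (fun i => hF.mul (ha 0 i)) (ha s))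
      (cont_d4 cp (fun i => (ha 0 i).continuous) cL cr)]
  refine J_congr fun y => ?_
  have i1 : ∀ i, Continuous fun t : ℝ => fm G A t i y := fun i =>
    (cl i).comp (continuous_id.prodMk continuous_const)
  have i2 : Continuous fun t : ℝ => pb G A (1, 0) (t, y) :=
    cu.comp (continuous_id.prodMk continuous_const)
  rw [intervalIntegral.integral_sub ((i2.intervalIntegrable _ _).mul_const _)
    ((cont_d4 (p := fun _ => pp y) (q := fun _ i => fm G B 0 i y) (r := fun t i => fm G A t i y)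
      (s := fun _ k => fderiv ℝ (pb G B (0, ee k)) (s, y) (1, 0))
      (fun _ => continuous_const) (fun _ => continuous_const) i1
      fun _ => continuous_const).intervalIntegrable _ _), intervalIntegral.integral_mul_const,
    ← w4_mul, int3 _ _ _ i1]
  simp only [Fw, one_mul]

theorem step_s (h : Core G A B Y) {L : Fin 4 → E → ℝ} (hL : ∀ i, Continuous (L i)) (T : ℝ) :
    (Continuous fun s : ℝ => J fun y => d4 (pp y) (fun i => fm G B 0 i y) (fun i => L i y)
      fun k => fderiv ℝ (pb G B (0, ee k)) (s, y) (1, 0)) ∧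
    ∫ s in (0 : ℝ)..T, (J fun y => d4 (pp y) (fun i => fm G B 0 i y) (fun i => L i y)
      fun k => fderiv ℝ (pb G B (0, ee k)) (s, y) (1, 0))
      = J fun y => d4 (pp y) (fun i => fm G B 0 i y) (fun i => L i y)
        fun k => fm G B T k y - fm G B 0 k y := by
  have cr : ∀ k, Continuous fun z : ℝ × E => fderiv ℝ (pb G B (0, ee k)) z (1, 0) := fun k =>
    cont_fd (cd_pb h.hG h.hB _) _
  have hc : Continuous (Function.uncurry fun (s : ℝ) (y : E) => d4 (pp y) (fun i => fm G B 0 i y)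
      (fun i => L i y) fun k => fderiv ℝ (pb G B (0, ee k)) (s, y) (1, 0)) :=
    cont_d4 (fun i => (cd_pp i).continuous.comp continuous_snd)
      (fun i => (cd_fm h.hG h.hB 0 i).continuous.comp continuous_snd)
      (fun i => (hL i).comp continuous_snd) cr
  refine ⟨J_cont hc, ?_⟩
  rw [J_swap hc]
  refine J_congr fun y => ?_
  have i1 : ∀ k, Continuous fun s : ℝ => fderiv ℝ (pb G B (0, ee k)) (s, y) (1, 0) := fun k =>
    (cr k).comp (continuous_id.prodMk continuous_const)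
  rw [int4 _ _ _ i1]
  congr 1
  funext k
  exact intervalIntegral.integral_eq_sub_of_hasDerivAt
    (fun s _ => has_fst (cd_pb h.hG h.hB _) s y) ((i1 k).intervalIntegrable _ _)

theorem growth (h : Core G A B Y) : ∃ κ : ℝ, 0 < κ ∧ ∀ (T K : ℝ) (k : ℝ → ℝ), 0 < T → 0 ≤ K →
    IntervalIntegrable k volume 0 T → (∀ t ∈ Icc 0 T, 0 ≤ k t) →
    Bd G T K → Bd G 0 K → (∀ t ∈ Icc 0 T, Bd G t (k t)) →
    (∃ x : E, ‖x‖ = 1 ∧ Fw G A (fun _ => 1) T x = 0) →
    κ * T ^ 2 ≤ K * ∫ t in (0 : ℝ)..T, k t := by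
  obtain ⟨C, hC, hA, hB, ha, hda⟩ := exists_const h
  have hV := h.V_pos
  set V := H (fm G B 0) (fm G A 0) with hVd
  have hvB := vB_nonneg
  refine ⟨V / (672 * C ^ 3 * vB + 1), by positivity, fun T K k hT hK hk hk0 bT b0 bt hx => ?_⟩
  obtain ⟨x, hx, hF⟩ := hx
  have hI0 : 0 ≤ ∫ t in (0 : ℝ)..T, k t := intervalIntegral.integral_nonneg hT.le hk0
  set I := ∫ t in (0 : ℝ)..T, k t with hId
  have hFc := (has_Fw h.hG h.hA (θ := fun _ => 1) continuous_const T).1
  have cl : ∀ i, Continuous fun z : ℝ × E => fm G A z.1 i z.2 := fun i =>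
    (cd_pb h.hG h.hA (0, ee i)).continuous
  obtain ⟨hQ, hI⟩ := step_s h (L := fun i y => ∫ t in (0 : ℝ)..T, fm G A t i y) (fun i =>
    intervalIntegral.continuous_parametric_intervalIntegral_of_continuous'
      (f := fun y (t : ℝ) => fm G A t i y) ((cl i).comp continuous_swap) 0 T) T
  have b1 : ∀ s ∈ Icc 0 T, |H (fm G B s) fun i y => Fw G A (fun _ => 1) T y * fm G B 0 i y|
      ≤ 24 * 2 * (C * k s) * (12 * (C * K) * C) * vB := fun s hs => J_le fun y => by
    by_cases hy : chi y = 0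
    · rw [w4_zero _ _ (pp_zero hy), abs_zero]
      have := hk0 s hs
      positivity
    obtain ⟨y1, y2⟩ := chi_ne hy
    obtain ⟨f1, f2⟩ := F_le h hA (by positivity) bT b0 hx hF y1 y2
    refine w4_le (pp_le y) (fm_le h hB (bt s hs) (by linarith)) fun i j => ?_
    have e : pd (fun y => Fw G A (fun _ => 1) T y * fm G B 0 j y) i y
        = Fw G A (fun _ => 1) T y * pd (fm G B 0 j) i y
          + fm G B 0 j y * pd (Fw G A (fun _ => 1) T) i y := by
      rw [pd, fderiv_fun_mul (hFc.differentiable one_ne_zero y)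
        ((cd_fm h.hG h.hB 0 j).differentiable one_ne_zero y)]
      rfl
    rw [e]
    refine (abs_add_le _ _).trans ?_
    rw [abs_mul, abs_mul]
    have m1 := mul_le_mul f1 (hda y i j y2) (abs_nonneg _) (by positivity)
    have m2 := mul_le_mul (ha y j y2) (f2 i) (abs_nonneg _) hC.le
    linarith
  have b2 : |J fun y => d4 (pp y) (fun i => fm G B 0 i y)
      (fun i => ∫ t in (0 : ℝ)..T, fm G A t i y) fun k => fm G B T k y - fm G B 0 k y|
      ≤ 24 * 2 * C * (C * I * (2 * (C * K))) * vB := J_le fun y => by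
    by_cases hy : chi y = 0
    · rw [d4, w4_zero _ _ (pp_zero hy), abs_zero]
      positivity
    obtain ⟨y1, y2⟩ := chi_ne hy
    have hy' : 1 / 2 < ‖y‖ := by linarith
    refine d4_le (pp_le y) (fun j => ha y j y2) (fun i => ?_) fun k => ?_
    · have h1 := intervalIntegral.norm_integral_le_of_norm_le (μ := volume) hT.le
        (f := fun t => fm G A t i y) (g := fun t => C * k t)
        (Eventually.of_forall fun t ht => fm_le h hA (bt t ⟨ht.1.le, ht.2⟩) hy' i) (hk.const_mul C)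
      rwa [intervalIntegral.integral_const_mul] at h1
    · exact (abs_sub _ _).trans (by linarith [fm_le h hB bT hy' k, fm_le h hB b0 hy' k])
  have b3 := intervalIntegral.norm_integral_le_of_norm_le (μ := volume) hT.le
    (f := fun s => T * V + J fun y => d4 (pp y) (fun i => fm G B 0 i y)
      (fun i => ∫ t in (0 : ℝ)..T, fm G A t i y)
      fun k => fderiv ℝ (pb G B (0, ee k)) (s, y) (1, 0))
    (g := fun s => 576 * C ^ 3 * K * vB * k s) (Eventually.of_forall fun s hs => by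
      rw [hVd, step_t h s T, sub_add_cancel]
      exact (b1 s ⟨hs.1.le, hs.2⟩).trans (le_of_eq (by ring))) (hk.const_mul _)
  rw [intervalIntegral.integral_add intervalIntegrable_const (hQ.intervalIntegrable _ _), hI,
    intervalIntegral.integral_const, sub_zero, smul_eq_mul, Real.norm_eq_abs,
    intervalIntegral.integral_const_mul, ← hId] at b3
  rw [div_mul_eq_mul_div, div_le_iff₀ (by positivity)]
  nlinarith [mul_nonneg hK hI0, (abs_le.1 b3).2, (abs_le.1 b2).1]

end Pool.Agent.Lib.MP_399f8e_an.Gg
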