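import Pool.Agent.Lib.MP_399f8e_an.Gg.Bound
import Pool.Agent.Lib.MP_399f8e_an.Rg.Flow

/-! From a flow on the sphere to the ambient data. -/

open Set Filter Topology Metric MeasureTheory
open scoped RealInnerProductSpace Manifold ContDiff
open Pool.Agent.Lib.MP_399f8e_an.Rg Pool.Agent.Lib.MP_399f8e_an.Dc

noncomputable section

namespace Pool.Agent.Lib.MP_399f8e_an.Gg

/-- a bump near the origin -/
def b1 : ContDiffBump (0 : E) := ⟨1 / 4, 1 / 2, by norm_num, by norm_num⟩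

/-- a wider bump near the origin -/
def b2 : ContDiffBump (0 : E) := ⟨3 / 5, 9 / 10, by norm_num, by norm_num⟩

/-- the flow composed with the radial projection, cut off near the origin -/
def Gm (φ : ℝ → S → S) (z : ℝ × E) : E := (1 - b1 z.2) • (φ z.1 (N z.2) : E)

/-- the vector field of the flow -/
def gen (φ : ℝ → S → S) (x : S) : E := deriv (fun t : ℝ => (φ t x : E)) 0

/-- the vector field in the ambient space -/
def Xh (φ : ℝ → S → S) (y : E) : E := fderiv ℝ (Gm φ) (0, y) (1, 0)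

/-- a one-form with value one on the field -/
def Bm (φ : ℝ → S → S) (y : E) : E := (1 - b2 y) • ((‖Xh φ y‖ ^ 2)⁻¹ • Xh φ y)

/-- the homogeneous extension of the field -/
def Ym (φ : ℝ → S → S) (y : E) : E := ‖y‖ • gen φ (N y)

/-- a Lipschitz bound -/
def Lp (g : S → S) (K : ℝ) : Prop := ∀ x y : S, ‖(g x : E) - g y‖ ≤ K * ‖(x : E) - y‖

variable {φ : ℝ → S → S}

theorem Gm_eq (t : ℝ) {y : E} (hy : 1 / 2 < ‖y‖) : Gm φ (t, y) = φ t (N y) := by
  rw [Gm, b1.zero_of_le_dist (by rw [dist_zero_right]; exact hy.le), sub_zero, one_smul]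

theorem cut {F : Type} [NormedAddCommGroup F] [NormedSpace ℝ F] {n : ℕ∞} (b : ContDiffBump (0 : E))
    {π : F → E} (hπ : ContDiff ℝ n π) {f : F → E} (hf : ∀ z, b.rIn ≤ ‖π z‖ → ContDiffAt ℝ n f z) :
    ContDiff ℝ n fun z => (1 - b (π z)) • f z := by
  refine contDiff_iff_contDiffAt.2 fun z => ?_
  by_cases h : b.rIn ≤ ‖π z‖
  · exact (contDiff_const.sub (b.contDiff.comp hπ)).contDiffAt.smul (hf z h)
  · refine (contDiffAt_const (c := (0 : E))).congr_of_eventuallyEq ?_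
    filter_upwards [hπ.continuous.continuousAt.eventually
      (b.eventuallyEq_one_of_mem_ball (mem_ball_zero_iff.2 (not_le.1 h)))] with w hw
    simp [hw]

theorem cd_Gm [Fact (Module.finrank ℝ E = 3 + 1)]
    (hs : ContMDiff (𝓘(ℝ, ℝ).prod (𝓡 3)) (𝓡 3) 2 fun p : ℝ × S => φ p.1 p.2) :
    ContDiff ℝ 2 (Gm φ) := by
  refine cut (n := 2) b1 contDiff_snd fun p hp => ?_
  have hp' : p.2 ≠ 0 := fun h => by
    have : b1.rIn = 1 / 4 := rfl
    rw [h, norm_zero, this] at hp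
    linarith
  have h1 : ContMDiffAt 𝓘(ℝ, ℝ × E) (𝓘(ℝ, ℝ).prod (𝓡 3)) 2
      (fun q : ℝ × E => (q.1, N q.2)) p :=
    contDiff_fst.contMDiff.contMDiffAt.prodMk
      ((FlowAux.contMDiffAt_N hp').comp p contDiff_snd.contMDiff.contMDiffAt)
  exact contMDiffAt_iff_contDiffAt.1
    ((contMDiff_coe_sphere (n := 3)).contMDiffAt.comp p (hs.contMDiffAt.comp p h1))

theorem half_lt (x : S) : 1 / 2 < ‖(x : E)‖ := by rw [norm_coe]; norm_num

section

variable (hG : ContDiff ℝ 2 (Gm φ)) (hφ : IsFl φ)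
include hG

theorem hasD (z : ℝ × E) : HasFDerivAt (Gm φ) (fderiv ℝ (Gm φ) z) z :=
  (hG.differentiable (by norm_num) z).hasFDerivAt

theorem has_t (t : ℝ) {y : E} (hy : 1 / 2 < ‖y‖) :
    HasDerivAt (fun s => (φ s (N y) : E)) (fderiv ℝ (Gm φ) (t, y) (1, 0)) t := by
  have h := (hasD hG (t, y)).comp_hasDerivAt t ((hasDerivAt_id t).prodMk (hasDerivAt_const t y))
  simpa only [Function.comp_def, id, Gm_eq _ hy] using h

theorem tangent (t : ℝ) {y : E} (hy : 1 / 2 < ‖y‖) (ζ : ℝ × E) :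
    ⟪(φ t (N y) : E), fderiv ℝ (Gm φ) (t, y) ζ⟫ = 0 := by
  have h1 := ((hasD hG (t, y)).inner ℝ (hasD hG (t, y))).fderiv
  have h2 : (fun z => ⟪Gm φ z, Gm φ z⟫) =ᶠ[𝓝 (t, y)] fun _ => (1 : ℝ) := by
    filter_upwards [(isOpen_U.preimage continuous_snd).mem_nhds (show (t, y) ∈ _ from hy)]
      with z hz
    rw [show z = (z.1, z.2) from rfl, Gm_eq _ hz, real_inner_self_eq_norm_sq, norm_coe, one_pow]
  rw [h2.fderiv_eq] at h1
  have h3 := congrArg (fun L : ℝ × E →L[ℝ] ℝ => L ζ) h1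
  simp [fderivInnerCLM_apply, Gm_eq _ hy] at h3
  rw [real_inner_comm (φ t (N y) : E)] at h3
  linarith

theorem bd_of_lp {t K : ℝ} (hK : 0 ≤ K) (h : Lp (φ t) K) : Bd (Gm φ) t (4 * K) := by
  intro y v hy
  have h1 := ((hasD hG (t, y)).comp y (hasFDerivAt_prodMk_right t y)).le_of_lip'
    (C := 4 * K) (by linarith) (by
      filter_upwards [isOpen_U.mem_nhds hy] with x hx
      simp only [Function.comp_def, Gm_eq _ hy, Gm_eq _ hx]
      have e : ‖y‖ • ((N x : E) - N y) = (‖y‖ - ‖x‖) • (N x : E) + (x - y) := by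
        rw [smul_sub, sub_smul, norm_smul_N, norm_smul_N]
        abel
      have h2 : ‖y‖ * ‖(N x : E) - N y‖ ≤ 2 * ‖x - y‖ := by
        have h3 := congrArg norm e
        rw [norm_smul, norm_norm] at h3
        have h4 := norm_add_le ((‖y‖ - ‖x‖) • (N x : E)) (x - y)
        rw [norm_smul, norm_coe, Real.norm_eq_abs, abs_sub_comm] at h4
        linarith [abs_norm_sub_norm_le x y]
      have h5 : ‖(N x : E) - N y‖ ≤ 4 * ‖x - y‖ := by nlinarith [norm_nonneg ((N x : E) - N y)]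
      exact (h _ _).trans (by nlinarith))
  exact ContinuousLinearMap.le_of_opNorm_le _ h1 v

include hφ

theorem D_t (t : ℝ) {y : E} (hy : 1 / 2 < ‖y‖) :
    fderiv ℝ (Gm φ) (t, y) (1, 0) = gen φ (φ t (N y)) := by
  have h1 := has_t hG t hy
  rw [← zero_add t] at h1
  have h2 := h1.comp_add_const 0 t
  simp only [hφ.add, zero_add] at h2
  exact h2.deriv.symm

theorem Xh_eq {y : E} (hy : 1 / 2 < ‖y‖) : Xh φ y = gen φ (N y) := by
  rw [Xh, D_t hG hφ 0 hy, hφ.zero]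

theorem D_Y (t : ℝ) {y : E} (hy : 1 / 2 < ‖y‖) :
    fderiv ℝ (Gm φ) (t, y) (0, Ym φ y) = fderiv ℝ (Gm φ) (t, y) (1, 0) := by
  have h0 : 0 < ‖y‖ := by linarith
  have h1 : HasDerivAt (fun s : ℝ => ‖y‖ • (φ s (N y) : E)) (Ym φ y) 0 := by
    have h2 := (has_t hG 0 hy).const_smul ‖y‖
    rwa [D_t hG hφ 0 hy, hφ.zero] at h2
  have h2 := HasFDerivAt.comp_hasDerivAt (l := Gm φ) (0 : ℝ)
    (by rw [hφ.zero, norm_smul_N]; exact hasD hG (t, y)) ((hasDerivAt_const (0 : ℝ) t).prodMk h1)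
  have h3 : (Gm φ ∘ fun s : ℝ => (t, ‖y‖ • (φ s (N y) : E))) = fun s => (φ (t + s) (N y) : E) :=
    funext fun s => by
      rw [Function.comp_apply, Gm_eq _ (by rw [norm_smul, norm_norm, norm_coe, mul_one]; exact hy),
        N_smul h0, N_coe, hφ.add]
  have h4 := has_t hG t hy
  rw [← add_zero t] at h4
  have h5 := h4.comp_const_add t 0
  rw [add_zero] at h5
  rw [h3] at h2
  exact h2.unique h5

theorem D_zero {y : E} (hy : 1 / 2 < ‖y‖) (v : E) :
    ∃ c : ℝ, fderiv ℝ (Gm φ) (0, y) (0, v) = ‖y‖⁻¹ • v + c • (N y : E) := by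
  have h0 : 0 < ‖y‖ := by linarith
  have hn := ((contDiffAt_norm ℝ (n := 1) (norm_pos_iff.1 h0)).differentiableAt
    one_ne_zero).hasFDerivAt
  have h1 := hn.fun_smul ((hasD hG (0, y)).comp y (hasFDerivAt_prodMk_right (0 : ℝ) y))
  have h2 : HasFDerivAt (fun x : E => ‖x‖ • (Gm φ ∘ fun x : E => ((0 : ℝ), x)) x)
      (ContinuousLinearMap.id ℝ E) y := (hasFDerivAt_id y).congr_of_eventuallyEq (by
    filter_upwards [isOpen_U.mem_nhds hy] with x hx
    rw [Function.comp_apply, Gm_eq _ hx, hφ.zero, norm_smul_N, id])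
  have h3 := congrArg (fun L : E →L[ℝ] E => L v) (h1.unique h2)
  simp [Gm_eq _ hy, hφ.zero] at h3
  refine ⟨-(‖y‖⁻¹ * fderiv ℝ norm y v), ?_⟩
  have h4 : fderiv ℝ (Gm φ) (0, y) (0, v) = ‖y‖⁻¹ • (v - fderiv ℝ norm y v • (N y : E)) := by
    rw [← eq_sub_of_add_eq h3, smul_smul, inv_mul_cancel₀ h0.ne', one_smul]
  rw [h4]
  module

theorem core {A : E → E} (hA : ContDiff ℝ 1 A) (hX : ∀ x, gen φ x ≠ 0) {ρ : S → ℝ}
    (hρ : ∀ x, 0 < ρ x) (hv : ∀ (x : S) (v w : E), ⟪(x : E), v⟫ = 0 → ⟪(x : E), w⟫ = 0 →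
      dA A x v w = ρ x * d4 (fun k => (x : E) k) (fun k => gen φ x k) (fun k => v k) fun k => w k) :
    Core (Gm φ) A (Bm φ) (Ym φ) := by
  have hXh : ContDiff ℝ 1 (Xh φ) :=
    ((cd_D hG).comp (contDiff_const.prodMk contDiff_id)).clm_apply contDiff_const
  refine ⟨hG, hA, cut (n := 1) b2 contDiff_id fun y hy => ?_, fun t y hy => ?_,
    fun t y hy => D_Y hG hφ t hy, fun y hy => ?_, fun t y hy => ?_, fun t y v hy => ?_,
    fun y hy => ?_⟩
  · have h1 : b2.rIn = 3 / 5 := rfl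
    have h2 : Xh φ y ≠ 0 := by
      rw [Xh_eq hG hφ (by rw [h1, id] at hy; linarith)]
      exact hX _
    exact (((contDiff_norm_sq ℝ).comp hXh).contDiffAt.inv
      (pow_ne_zero 2 (norm_ne_zero_iff.2 h2))).smul hXh.contDiffAt
  · rw [Gm_eq _ hy, norm_coe]
  · have h1 := tangent hG 0 hy (1, 0)
    rw [D_t hG hφ 0 hy, hφ.zero] at h1
    rw [Ym, inner_smul_right]
    nth_rewrite 2 [← norm_smul_N y]
    rw [inner_smul_left, h1, mul_zero, mul_zero]
  · have h1 : b2.rOut = 9 / 10 := rfl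
    rw [pb, D_t hG hφ t hy, Gm_eq _ hy, Bm,
      b2.zero_of_le_dist (by rw [dist_zero_right, norm_coe, h1]; norm_num), sub_zero, one_smul,
      Xh_eq hG hφ (half_lt _), N_coe, inner_smul_left, real_inner_self_eq_norm_sq]
    exact inv_mul_cancel₀ (pow_ne_zero 2 (norm_ne_zero_iff.2 (hX _)))
  · rw [Gm_eq _ hy, hv _ _ _ (tangent hG t hy _) (tangent hG t hy _), D_t hG hφ t hy]
    simp only [d4, w4]
    ring
  · have h0 : 0 < ‖y‖ := by linarith
    refine ⟨ρ (N y) / ‖y‖ ^ 4, div_pos (hρ _) (by positivity), fun i j => ?_⟩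
    rw [Gm_eq _ hy, hv _ _ _ (tangent hG 0 hy _) (tangent hG 0 hy _), hφ.zero]
    obtain ⟨c, hc⟩ := D_zero hG hφ hy (ee i)
    obtain ⟨c', hc'⟩ := D_zero hG hφ hy (ee j)
    have e1 : ∀ k, y k = ‖y‖ * (N y : E) k := fun k =>
      (congrArg (fun z : E => z k) (norm_smul_N y)).symm
    have e2 : ∀ i k, ee i k = dl i k := fun i k => by simp [ee, dl]
    rw [hc, hc', funext e1]
    simp only [d4, w4, Ym, PiLp.add_apply, PiLp.smul_apply, smul_eq_mul, e2]
    field_simp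
    ring

end

theorem one_le_lp (hφ : IsFl φ) {t K : ℝ} (h : Lp (φ t) K) : 1 ≤ K := by
  have e : ∀ x, φ t (φ (-t) x) = x := fun x => by rw [← hφ.add, add_neg_cancel, hφ.zero]
  have h1 := h (φ (-t) pole) (φ (-t) (-pole))
  rw [e, e, coe_neg_sphere, sub_neg_eq_add, ← two_smul ℝ, norm_smul, norm_coe] at h1
  have h2 := norm_sub_le (φ (-t) pole : E) (φ (-t) (-pole))
  rw [norm_coe, norm_coe] at h2
  by_contra h3
  have h4 := norm_nonneg ((φ (-t) pole : E) - φ (-t) (-pole))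
  rw [Real.norm_ofNat] at h1
  nlinarith [mul_nonneg h4 (sub_nonneg.2 (not_le.1 h3).le), mul_pos (sub_pos.2 (not_le.1 h3)) (show (0 : ℝ) < 2 by norm_num), mul_nonneg (sub_nonneg.2 h2) (sub_nonneg.2 (not_le.1 h3).le), abs_nonneg K]

theorem main [Fact (Module.finrank ℝ E = 3 + 1)]
    (hs : ContMDiff (𝓘(ℝ, ℝ).prod (𝓡 3)) (𝓡 3) 2 fun p : ℝ × S => φ p.1 p.2) (hφ : IsFl φ)
    {A : E → E} (hA : ContDiff ℝ 1 A) (hX : ∀ x, gen φ x ≠ 0) {ρ : S → ℝ}
    (hρ : ∀ x, 0 < ρ x) (hv : ∀ (x : S) (v w : E), ⟪(x : E), v⟫ = 0 → ⟪(x : E), w⟫ = 0 →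
      dA A x v w = ρ x * d4 (fun k => (x : E) k) (fun k => gen φ x k) (fun k => v k) fun k => w k)
    (hc : ∀ w : E → ℝ, ContDiff ℝ 1 w → ∃ x : S, ⟪A x, gen φ x⟫ + fderiv ℝ w x (gen φ x) = 0) :
    ∃ κ : ℝ, 0 < κ ∧ ∀ (T K : ℝ) (k : ℝ → ℝ), 0 < T → Lp (φ T) K →
      IntervalIntegrable k volume 0 T → (∀ t ∈ Icc 0 T, Lp (φ t) (k t)) →
      κ * T ^ 2 ≤ K * ∫ t in (0 : ℝ)..T, k t := by
  have hG := cd_Gm hs
  have h := core hG hφ hA hX hρ hv
  obtain ⟨κ, hκ, H⟩ := growth h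
  refine ⟨κ / 16, by positivity, fun T K k hT hK hk hl => ?_⟩
  have K1 := one_le_lp hφ hK
  have k1 : ∀ t ∈ Icc 0 T, 0 ≤ k t := fun t ht => zero_le_one.trans (one_le_lp hφ (hl t ht))
  have h1 := H T (4 * K) (fun t => 4 * k t) hT (by linarith) (hk.const_mul 4)
    (fun t ht => by linarith [k1 t ht]) (bd_of_lp hG (by linarith) hK)
    (bd_of_lp hG (by linarith) fun x y => by
      rw [hφ.zero, hφ.zero]
      nlinarith [norm_nonneg ((x : E) - y)])
    (fun t ht => bd_of_lp hG (k1 t ht) (hl t ht)) (by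
      obtain ⟨x, hx⟩ := hc _ (has_Fw hG hA (θ := fun s => 1 - s / T) (by fun_prop) T).1
      have h2 := h.dW hT.ne' (half_lt x)
      rw [Ym, N_coe, norm_coe, one_smul, pb, D_t hG hφ 0 (half_lt x), Gm_eq _ (half_lt x), N_coe,
        hφ.zero] at h2
      refine ⟨x, norm_coe x, ?_⟩
      have h3 : Fw (Gm φ) A (fun _ => 1) T x / T = 0 := by linarith
      exact (div_eq_zero_iff.1 h3).resolve_right hT.ne')
  rw [intervalIntegral.integral_const_mul] at h1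
  linarith

end Pool.Agent.Lib.MP_399f8e_an.Gg
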