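import Pool.Agent.Lib.MP_399f8e_an.Gg.Pull

/-! The basic identity. -/

open Set Filter Topology Metric MeasureTheory
open scoped RealInnerProductSpace
open Pool.Agent.Lib.MP_399f8e_an.Rg Pool.Agent.Lib.MP_399f8e_an.Dc

noncomputable section

namespace Pool.Agent.Lib.MP_399f8e_an.Gg

/-- what is used of the flow, read in the ambient space -/
structure Core (G : ℝ × E → E) (A B Y : E → E) : Prop where
  hG : ContDiff ℝ 2 G
  hA : ContDiff ℝ 1 A
  hB : ContDiff ℝ 1 B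
  nG : ∀ t y, 1 / 2 < ‖y‖ → ‖G (t, y)‖ = 1
  hY : ∀ t y, 1 / 2 < ‖y‖ → fderiv ℝ G (t, y) (0, Y y) = fderiv ℝ G (t, y) (1, 0)
  perp : ∀ y, 1 / 2 < ‖y‖ → ⟪y, Y y⟫ = 0
  one : ∀ t y, 1 / 2 < ‖y‖ → pb G B (1, 0) (t, y) = 1
  ker : ∀ t y v, 1 / 2 < ‖y‖ →
    dA A (G (t, y)) (fderiv ℝ G (t, y) (1, 0)) (fderiv ℝ G (t, y) (0, v)) = 0
  vol : ∀ y : E, 1 / 2 < ‖y‖ → ∃ c : ℝ, 0 < c ∧ ∀ i j,
    dA A (G (0, y)) (fderiv ℝ G (0, y) (0, ee i)) (fderiv ℝ G (0, y) (0, ee j))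
      = c * d4 (fun k => y k) (fun k => Y y k) (dl i) (dl j)

variable {G : ℝ × E → E} {A B Y : E → E}

theorem isOpen_U : IsOpen {y : E | 1 / 2 < ‖y‖} := isOpen_lt continuous_const continuous_norm

theorem inn (a b : E) : ∑ j, a j * b j = ⟪a, b⟫ := by
  simp [PiLp.inner_apply, mul_comm]

namespace Core

theorem du (h : Core G A B Y) (s : ℝ) {y : E} (hy : 1 / 2 < ‖y‖) (v : E) :
    fderiv ℝ (pb G A (1, 0)) (s, y) (0, v) = fderiv ℝ (pb G A (0, v)) (s, y) (1, 0) := by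
  have h1 := pb_d h.hG h.hA (s, y) (1, 0) (0, v)
  rw [h.ker s y v hy] at h1
  linarith

theorem dF (h : Core G A B Y) (T : ℝ) {y : E} (hy : 1 / 2 < ‖y‖) (v : E) :
    fderiv ℝ (Fw G A (fun _ => 1) T) y v = pb G A (0, v) (T, y) - pb G A (0, v) (0, y) := by
  rw [(has_Fw h.hG h.hA continuous_const T).2]
  simp only [one_mul, h.du _ hy]
  exact intervalIntegral.integral_eq_sub_of_hasDerivAt
    (fun s _ => has_fst (cd_pb h.hG h.hA _) s y)
    (((cont_fd (cd_pb h.hG h.hA _) _).comp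
      (continuous_id.prodMk continuous_const)).intervalIntegrable _ _)

theorem pbY (h : Core G A B Y) (C : E → E) (t : ℝ) {y : E} (hy : 1 / 2 < ‖y‖) :
    pb G C (0, Y y) (t, y) = pb G C (1, 0) (t, y) := by
  rw [pb, pb, h.hY t y hy]

theorem dW (h : Core G A B Y) {T : ℝ} (hT : T ≠ 0) {y : E} (hy : 1 / 2 < ‖y‖) :
    fderiv ℝ (Fw G A (fun s => 1 - s / T) T) y (Y y)
      = Fw G A (fun _ => 1) T y / T - pb G A (1, 0) (0, y) := by
  have hu := cd_pb h.hG h.hA (0, Y y)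
  have c1 : Continuous fun s : ℝ => fderiv ℝ (pb G A (0, Y y)) (s, y) (1, 0) :=
    (cont_fd hu _).comp (continuous_id.prodMk continuous_const)
  rw [(has_Fw h.hG h.hA (by fun_prop) T).2]
  simp only [h.du _ hy]
  rw [intervalIntegral.integral_mul_deriv_eq_deriv_mul (u := fun s => 1 - s / T)
    (u' := fun _ => -(1 / T)) (v := fun s => pb G A (0, Y y) (s, y))
    (fun s _ => ((hasDerivAt_id s).div_const T).const_sub 1) (fun s _ => has_fst hu s y)
    intervalIntegrable_const (c1.intervalIntegrable _ _)]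
  simp only [h.pbY A _ hy, Fw, one_mul, intervalIntegral.integral_const_mul]
  field_simp
  ring

theorem closed (h : Core G A B Y) (t : ℝ) {y : E} (hy : 1 / 2 < ‖y‖) (i j : Fin 4) :
    pd (fm G A t j) i y - pd (fm G A t i) j y = pd (fm G A 0 j) i y - pd (fm G A 0 i) j y := by
  have hd : ∀ s k, HasFDerivAt (fm G A s k) (fderiv ℝ (fm G A s k) y) y := fun s k =>
    ((cd_fm h.hG h.hA s k).differentiable one_ne_zero y).hasFDerivAt
  have h1 : ∀ᶠ z in 𝓝 y, HasFDerivAt (Fw G A (fun _ => 1) t)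
      (∑ k, (fm G A t k z - fm G A 0 k z) • (EuclideanSpace.proj k : E →L[ℝ] ℝ)) z := by
    filter_upwards [isOpen_U.mem_nhds hy] with z hz
    have h2 := ((has_Fw h.hG h.hA (θ := fun _ => 1) continuous_const t).1.differentiable
      one_ne_zero z).hasFDerivAt
    refine h2.congr_fderiv (Eq.symm (ContinuousLinearMap.ext fun v => ?_))
    rw [h.dF t hz, ← pb_expand, ← pb_expand, ← Finset.sum_sub_distrib]
    simp [sub_mul]
  have h2 := HasFDerivAt.fun_sum (u := Finset.univ) fun k _ =>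
    ((hd t k).fun_sub (hd 0 k)).smul_const (EuclideanSpace.proj k : E →L[ℝ] ℝ)
  have h3 := second_derivative_symmetric_of_eventually_of_real h1 h2 (ee i) (ee j)
  simp [ee] at h3
  simp only [pd, ee]
  linarith

theorem pY (h : Core G A B Y) {y : E} (hy : 1 / 2 < ‖y‖) : ∑ j, pp y j * Y y j = 0 := by
  simp only [pp, mul_assoc, ← Finset.mul_sum, inn, h.perp y hy, mul_zero]

theorem aY (h : Core G A B Y) (s : ℝ) {y : E} (hy : 1 / 2 < ‖y‖) :
    ∑ j, fm G B s j y * Y y j = 1 := by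
  rw [pb_expand, h.pbY B s hy, h.one s y hy]

theorem iY (h : Core G A B Y) {C : E → E} (hC : ContDiff ℝ 1 C) (s : ℝ) {y : E}
    (hy : 1 / 2 < ‖y‖) (k : Fin 4) :
    ∑ j, Y y j * (pd (fm G C s k) j y - pd (fm G C s j) k y)
      = dA C (G (s, y)) (fderiv ℝ G (s, y) (1, 0)) (fderiv ℝ G (s, y) (0, ee k)) := by
  simp only [fm_d h.hG hC]
  rw [dA_expand, h.hY s y hy]

theorem V_pos (h : Core G A B Y) : 0 < H (fm G B 0) (fm G A 0) := by
  refine J_pos (cont_H (cd_fm h.hG h.hB 0) (cd_fm h.hG h.hA 0))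
    (fun y hy => w4_zero _ _ (pp_zero hy)) fun y hy => ?_
  have hy1 := (chi_ne hy).1
  have hy' : 1 / 2 < ‖y‖ := by linarith
  obtain ⟨c, hc, h1⟩ := h.vol y hy'
  rw [vol_eq _ _ (fun k => y k) (fun k => Y y k) c
    (fun i j => (fm_d h.hG h.hA 0 i j y).trans (h1 i j)), h.pY hy', h.aY 0 hy']
  simp only [pp, mul_assoc, ← Finset.mul_sum, inn, real_inner_self_eq_norm_sq]
  have := (chi_nonneg y).lt_of_ne' hy
  have : 0 < ‖y‖ := by linarith
  simp only [zero_mul, sub_zero, mul_one]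
  positivity

theorem ident (h : Core G A B Y) (s t : ℝ) :
    H (fm G B 0) (fm G A 0) = J fun y => pb G A (1, 0) (t, y) *
        w4 (pp y) (fun i => fm G B 0 i y) (fun i j => pd (fm G B s j) i y)
      - d4 (pp y) (fun i => fm G B 0 i y) (fun i => fm G A t i y)
        fun k => fderiv ℝ (pb G B (0, ee k)) (s, y) (1, 0) := by
  have e1 : H (fm G B s) (fm G A t) = H (fm G B 0) (fm G A 0) := J_congr fun y => by
    by_cases hy : chi y = 0
    · rw [w4_zero _ _ (pp_zero hy), w4_zero _ _ (pp_zero hy)]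
    have hy' : 1 / 2 < ‖y‖ := by linarith [(chi_ne hy).1]
    rw [w4_congr _ _ (M' := fun i j => pd (fm G A 0 j) i y) fun i j => h.closed t hy' i j,
      contr (pp y) (fun i => fm G B 0 i y) (fun i => fm G B s i y) (fun k => Y y k) (fun _ => 0)
        _ (h.pY hy') (h.aY 0 hy') fun k => by rw [h.iY h.hA 0 hy', h.ker 0 y _ hy'], h.aY s hy']
    simp [d4, w4]
  rw [← e1, stokes (cd_fm h.hG h.hB s) (cd_fm h.hG h.hA t)]
  refine J_congr fun y => ?_
  by_cases hy : chi y = 0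
  · simp [d4, w4_zero _ _ (pp_zero hy)]
  have hy' : 1 / 2 < ‖y‖ := by linarith [(chi_ne hy).1]
  have h0 : ∀ k, fderiv ℝ (pb G B (1, 0)) (s, y) (0, ee k) = 0 := fun k => by
    have h1 : pb G B (1, 0) =ᶠ[𝓝 (s, y)] fun _ => 1 := by
      filter_upwards [(isOpen_U.preimage continuous_snd).mem_nhds (show (s, y) ∈ _ from hy')]
        with z hz
      exact h.one z.1 z.2 hz
    rw [h1.fderiv_eq]
    simp
  rw [contr (pp y) (fun i => fm G B 0 i y) (fun i => fm G A t i y) (fun k => Y y k)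
    (fun k => fderiv ℝ (pb G B (0, ee k)) (s, y) (1, 0)) _ (h.pY hy') (h.aY 0 hy') fun k => by
      rw [h.iY h.hB s hy', ← pb_d h.hG h.hB, h0, sub_zero], pb_expand, h.pbY A t hy']

end Core

end Pool.Agent.Lib.MP_399f8e_an.Gg
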