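import Pool.Agent.Lib.MP_399f8e_an.Gg.Stokes

/-! Pull-backs of one-forms under a map from space-time. -/

open Set Filter Topology Metric MeasureTheory
open scoped RealInnerProductSpace
open Pool.Agent.Lib.MP_399f8e_an.Rg Pool.Agent.Lib.MP_399f8e_an.Dc

noncomputable section

namespace Pool.Agent.Lib.MP_399f8e_an.Gg

variable {G : ℝ × E → E} {A : E → E}

/-- the pull-back of `⟪A, ·⟫`, evaluated on a constant vector -/
def pb (G : ℝ × E → E) (A : E → E) (ζ z : ℝ × E) : ℝ := ⟪A (G z), fderiv ℝ G z ζ⟫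

/-- the components of the pull-back at a fixed time -/
def fm (G : ℝ × E → E) (A : E → E) (t : ℝ) (i : Fin 4) (y : E) : ℝ := pb G A (0, ee i) (t, y)

/-- weighted integral along the time direction -/
def Fw (G : ℝ × E → E) (A : E → E) (θ : ℝ → ℝ) (T : ℝ) (y : E) : ℝ :=
  ∫ s in (0 : ℝ)..T, θ s * pb G A (1, 0) (s, y)

theorem cd_D (hG : ContDiff ℝ 2 G) : ContDiff ℝ 1 (fderiv ℝ G) := hG.fderiv_right (by norm_num)

theorem cd_pb (hG : ContDiff ℝ 2 G) (hA : ContDiff ℝ 1 A) (ζ : ℝ × E) : ContDiff ℝ 1 (pb G A ζ) :=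
  (hA.comp (hG.of_le (by norm_num))).inner ℝ ((cd_D hG).clm_apply contDiff_const)

theorem pb_d (hG : ContDiff ℝ 2 G) (hA : ContDiff ℝ 1 A) (z ξ ζ : ℝ × E) :
    fderiv ℝ (pb G A ζ) z ξ - fderiv ℝ (pb G A ξ) z ζ
      = dA A (G z) (fderiv ℝ G z ξ) (fderiv ℝ G z ζ) := by
  have h1 : HasFDerivAt G (fderiv ℝ G z) z := (hG.differentiable (by norm_num) z).hasFDerivAt
  have h2 : HasFDerivAt (fderiv ℝ G) (fderiv ℝ (fderiv ℝ G) z) z :=
    ((cd_D hG).differentiable one_ne_zero z).hasFDerivAt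
  have h3 := (hA.differentiable one_ne_zero (G z)).hasFDerivAt.comp z h1
  have h4 : ∀ ζ : ℝ × E, HasFDerivAt (pb G A ζ) _ z := fun ζ =>
    h3.inner ℝ (h2.clm_apply (hasFDerivAt_const ζ z))
  have h5 := second_derivative_symmetric
    (fun y => (hG.differentiable (by norm_num) y).hasFDerivAt) h2 ξ ζ
  rw [(h4 ζ).fderiv, (h4 ξ).fderiv]
  simp [dA, fderivInnerCLM_apply, h5]

theorem has_fst {f : ℝ × E → ℝ} (hf : ContDiff ℝ 1 f) (s : ℝ) (y : E) :
    HasDerivAt (fun s => f (s, y)) (fderiv ℝ f (s, y) (1, 0)) s :=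
  (hf.differentiable one_ne_zero (s, y)).hasFDerivAt.comp_hasDerivAt s
    ((hasDerivAt_id s).prodMk (hasDerivAt_const s y))

theorem has_snd {f : ℝ × E → ℝ} (hf : ContDiff ℝ 1 f) (s : ℝ) (y : E) :
    HasFDerivAt (fun y => f (s, y))
      ((fderiv ℝ f (s, y)).comp (ContinuousLinearMap.inr ℝ ℝ E)) y :=
  (hf.differentiable one_ne_zero (s, y)).hasFDerivAt.comp y (hasFDerivAt_prodMk_right s y)

theorem cont_fd {f : ℝ × E → ℝ} (hf : ContDiff ℝ 1 f) (ζ : ℝ × E) :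
    Continuous fun z => fderiv ℝ f z ζ :=
  (hf.continuous_fderiv one_ne_zero).clm_apply continuous_const

theorem cd_fm (hG : ContDiff ℝ 2 G) (hA : ContDiff ℝ 1 A) (t : ℝ) (i : Fin 4) :
    ContDiff ℝ 1 (fm G A t i) :=
  (cd_pb hG hA _).comp (contDiff_const.prodMk contDiff_id)

theorem pd_fm (hG : ContDiff ℝ 2 G) (hA : ContDiff ℝ 1 A) (t : ℝ) (i j : Fin 4) (y : E) :
    pd (fm G A t j) i y = fderiv ℝ (pb G A (0, ee j)) (t, y) (0, ee i) := by
  have h := (has_snd (cd_pb hG hA (0, ee j)) t y).fderiv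
  exact congrArg (fun L : E →L[ℝ] ℝ => L (ee i)) h

theorem fm_d (hG : ContDiff ℝ 2 G) (hA : ContDiff ℝ 1 A) (t : ℝ) (i j : Fin 4) (y : E) :
    pd (fm G A t j) i y - pd (fm G A t i) j y
      = dA A (G (t, y)) (fderiv ℝ G (t, y) (0, ee i)) (fderiv ℝ G (t, y) (0, ee j)) := by
  rw [pd_fm hG hA, pd_fm hG hA, pb_d hG hA]

theorem expand {F : Type} [NormedAddCommGroup F] [NormedSpace ℝ F] (L : ℝ × E →L[ℝ] F) (v : E) :
    L (0, v) = ∑ j, v j • L (0, ee j) := by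
  have h : ((0, v) : ℝ × E) = ∑ j, v j • ((0, ee j) : ℝ × E) := by
    ext i
    · simp [Prod.fst_sum]
    · simp [Prod.snd_sum, ee, Pi.single_apply]
  rw [h, map_sum]
  simp only [map_smul]

theorem pb_expand (t : ℝ) (y v : E) : ∑ j, fm G A t j y * v j = pb G A (0, v) (t, y) := by
  rw [pb, expand, inner_sum]
  simp only [fm, pb, inner_smul_right, mul_comm]

theorem dA_expand (z : ℝ × E) (p v b : E) :
    ∑ j, v j * dA A p (fderiv ℝ G z (0, ee j)) b = dA A p (fderiv ℝ G z (0, v)) b := by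
  rw [expand (fderiv ℝ G z) v]
  simp only [dA, map_sum, map_smul, sum_inner, inner_sum, inner_smul_left, inner_smul_right,
    mul_sub, Finset.sum_sub_distrib, conj_trivial]

theorem has_Fw (hG : ContDiff ℝ 2 G) (hA : ContDiff ℝ 1 A) {θ : ℝ → ℝ} (hθ : Continuous θ)
    (T : ℝ) : ContDiff ℝ 1 (Fw G A θ T) ∧ ∀ y v, fderiv ℝ (Fw G A θ T) y v
      = ∫ s in (0 : ℝ)..T, θ s * fderiv ℝ (pb G A (1, 0)) (s, y) (0, v) := by
  have hu := cd_pb hG hA (1, 0)
  have hc : Continuous fun q : ℝ × E =>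
      θ q.1 • (fderiv ℝ (pb G A (1, 0)) (q.1, q.2)).comp (ContinuousLinearMap.inr ℝ ℝ E) :=
    (hθ.comp continuous_fst).smul ((hu.continuous_fderiv one_ne_zero).clm_comp continuous_const)
  have h1 : ∀ y, HasFDerivAt (Fw G A θ T) (∫ s in (0 : ℝ)..T,
      θ s • (fderiv ℝ (pb G A (1, 0)) (s, y)).comp (ContinuousLinearMap.inr ℝ ℝ E)) y := fun y =>
    par (fun s y => θ s * pb G A (1, 0) (s, y))
      (fun s y => θ s • (fderiv ℝ (pb G A (1, 0)) (s, y)).comp (ContinuousLinearMap.inr ℝ ℝ E))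
      ((hθ.comp continuous_fst).mul hu.continuous) hc
      (fun s p => (has_snd hu s p).const_mul (θ s)) 0 T y
  refine ⟨contDiff_one_iff_fderiv.2 ⟨fun y => (h1 y).differentiableAt, ?_⟩, fun y v => ?_⟩
  · rw [funext fun y => (h1 y).fderiv]
    exact intervalIntegral.continuous_parametric_intervalIntegral_of_continuous'
      (f := fun y (s : ℝ) =>
        θ s • (fderiv ℝ (pb G A (1, 0)) (s, y)).comp (ContinuousLinearMap.inr ℝ ℝ E))
      (hc.comp continuous_swap) 0 T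
  · rw [(h1 y).fderiv, ContinuousLinearMap.intervalIntegral_apply]
    · rfl
    · exact (hc.comp (continuous_id.prodMk continuous_const)).intervalIntegrable _ _

end Pool.Agent.Lib.MP_399f8e_an.Gg
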