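import Pool.Agent.Lib.MP_399f8e_an.Gg.Alg
import Pool.Agent.Lib.MP_399f8e_an.Dc.Par

/-! Integration by parts on a spherical shell. -/

open Set Filter Topology Metric MeasureTheory
open scoped RealInnerProductSpace
open Pool.Agent.Lib.MP_399f8e_an.Rg

noncomputable section

namespace Pool.Agent.Lib.MP_399f8e_an.Gg

/-- basis vectors of the ambient space -/
def ee (i : Fin 4) : E := EuclideanSpace.single i 1

/-- coordinate derivative -/
def pd (f : E → ℝ) (i : Fin 4) (y : E) : ℝ := fderiv ℝ f y (ee i)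

/-- a bump on the interval `(1, 4)` -/
def gam : ContDiffBump (5 / 2 : ℝ) := ⟨1 / 2, 3 / 2, by norm_num, by norm_num⟩

/-- the radial weight -/
def chi (y : E) : ℝ := gam (‖y‖ ^ 2)

/-- the radial one-form, cut off -/
def pp (y : E) (i : Fin 4) : ℝ := chi y * y i

/-- integral over the ball of radius two -/
def J (g : E → ℝ) : ℝ := ∫ y in closedBall (0 : E) 2, g y

theorem chi_nonneg (y : E) : 0 ≤ chi y := gam.nonneg

theorem chi_le (y : E) : chi y ≤ 1 := gam.le_one

theorem chi_ne {y : E} (h : chi y ≠ 0) : 1 < ‖y‖ ∧ ‖y‖ < 2 := by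
  have h1 : ‖y‖ ^ 2 ∈ Function.support gam := h
  rw [gam.support_eq, mem_ball, Real.dist_eq, abs_lt] at h1
  have h2 : gam.rOut = 3 / 2 := rfl
  have h3 := norm_nonneg y
  rw [h2] at h1
  constructor <;> nlinarith [h1.1, h1.2]

theorem chi_pos : ∃ y : E, chi y ≠ 0 := by
  refine ⟨(3 / 2 : ℝ) • ee 0, (gam.pos_of_mem_ball ?_).ne'⟩
  have h2 : gam.rOut = 3 / 2 := rfl
  rw [mem_ball, Real.dist_eq, h2, norm_smul, ee]
  norm_num [abs_lt]

theorem cd_chi : ContDiff ℝ 1 chi := gam.contDiff.comp (contDiff_norm_sq ℝ)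

theorem cd_pp (i : Fin 4) : ContDiff ℝ 1 fun y => pp y i :=
  cd_chi.mul (EuclideanSpace.proj i : E →L[ℝ] ℝ).contDiff

theorem pp_zero {y : E} (h : chi y = 0) (i : Fin 4) : pp y i = 0 := by simp [pp, h]

theorem pp_le (y : E) (i : Fin 4) : |pp y i| ≤ 2 := by
  by_cases h : chi y = 0
  · simp [pp, h]
  · rw [pp, abs_mul, abs_of_nonneg (chi_nonneg y)]
    have h1 : |y i| ≤ ‖y‖ := PiLp.norm_apply_le y i
    nlinarith [chi_le y, chi_nonneg y, (chi_ne h).2, abs_nonneg (y i)]

theorem pp_symm (y : E) (i j : Fin 4) :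
    pd (fun y => pp y j) i y = pd (fun y => pp y i) j y := by
  have h1 : HasFDerivAt chi (deriv gam (‖y‖ ^ 2) • (2 • innerSL ℝ y)) y :=
    ((gam.contDiff (n := 1)).differentiable one_ne_zero _).hasDerivAt.comp_hasFDerivAt y
      (hasStrictFDerivAt_norm_sq y).hasFDerivAt
  have h2 : ∀ k : Fin 4, HasFDerivAt (fun y => pp y k) _ y := fun k =>
    h1.fun_mul (EuclideanSpace.proj k : E →L[ℝ] ℝ).hasFDerivAt
  rw [pd, pd, (h2 j).fderiv, (h2 i).fderiv]
  simp [ee, EuclideanSpace.inner_single_right, eq_comm]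
  ring

theorem cont_pd {f : E → ℝ} (hf : ContDiff ℝ 1 f) (i : Fin 4) : Continuous (pd f i) :=
  (hf.continuous_fderiv one_ne_zero).clm_apply continuous_const

theorem line {f : E → ℝ} {y : E} (hf : DifferentiableAt ℝ f y) (v : E) :
    HasDerivAt (fun s : ℝ => f (y + s • v)) (fderiv ℝ f y v) 0 := by
  have h1 : HasDerivAt (fun s : ℝ => y + s • v) v 0 := by
    simpa using ((hasDerivAt_id (0 : ℝ)).smul_const v).const_add y
  exact HasFDerivAt.comp_hasDerivAt (l := f) (0 : ℝ) (by simpa using hf.hasFDerivAt) h1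

theorem J_eq {g : E → ℝ} (h : ∀ y, chi y = 0 → g y = 0) : J g = ∫ y, g y :=
  setIntegral_eq_integral_of_forall_compl_eq_zero fun y hy => h y (by
    by_contra h1
    exact hy (mem_closedBall_zero_iff.2 (chi_ne h1).2.le))

theorem supp {g : E → ℝ} (h : ∀ y, chi y = 0 → g y = 0) : HasCompactSupport g :=
  HasCompactSupport.intro (isCompact_closedBall (0 : E) 2) fun y hy => h y (by
    by_contra h1
    exact hy (mem_closedBall_zero_iff.2 (chi_ne h1).2.le))

theorem int_pd {g : E → ℝ} (hg : ContDiff ℝ 1 g) (hc : HasCompactSupport g) (i : Fin 4) :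
    Integrable (pd g i) ∧ ∫ y, pd g i y = 0 := by
  have h1 : Integrable (pd g i) :=
    (cont_pd hg i).integrable_of_hasCompactSupport (hc.fderiv_apply ℝ (ee i))
  refine ⟨h1, ?_⟩
  have h2 := integral_mul_fderiv_eq_neg_fderiv_mul_of_integrable (μ := (volume : Measure E))
    (f := fun _ : E => (1 : ℝ)) (g := g) (v := ee i) (by simp) (by simp only [one_mul]; exact h1)
    (by simpa using hg.continuous.integrable_of_hasCompactSupport hc)
    (fun _ _ => differentiableAt_const _) (fun x _ => hg.differentiable one_ne_zero x)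
  simpa [pd] using h2

/-- the pairing `∫ p ∧ a ∧ d b` -/
def H (a b : Fin 4 → E → ℝ) : ℝ := J fun y => w4 (pp y) (fun i => a i y) fun i j => pd (b j) i y

theorem cont_H {a b : Fin 4 → E → ℝ} (ha : ∀ i, ContDiff ℝ 1 (a i)) (hb : ∀ i, ContDiff ℝ 1 (b i)) :
    Continuous fun y => w4 (pp y) (fun i => a i y) fun i j => pd (b j) i y :=
  cont_w4 (fun i => (cd_pp i).continuous) (fun i => (ha i).continuous) fun i j => cont_pd (hb j) i

theorem stokes {a b : Fin 4 → E → ℝ} (ha : ∀ i, ContDiff ℝ 1 (a i)) (hb : ∀ i, ContDiff ℝ 1 (b i)) :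
    H a b = H b a := by
  let η : Fin 4 → E → ℝ := fun i y => d4 (dl i) (pp y) (fun k => a k y) fun k => b k y
  have hη : ∀ i, ContDiff ℝ 1 (η i) := fun i => by
    have := cd_pp
    simp only [η, d4, w4]
    fun_prop
  have hz : ∀ i y, chi y = 0 → η i y = 0 := fun i y h => by simp [η, d4, w4, pp_zero h]
  have hd : ∀ i y, pd (η i) i y = d4 (dl i) (fun k => pd (fun y => pp y k) i y) (fun k => a k y)
      (fun k => b k y) + d4 (dl i) (pp y) (fun k => pd (a k) i y) (fun k => b k y)
        + d4 (dl i) (pp y) (fun k => a k y) fun k => pd (b k) i y := fun i y => by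
    have h1 := d4_deriv (dl i) (P := fun s => pp (y + s • ee i))
      (A := fun s k => a k (y + s • ee i)) (B := fun s k => b k (y + s • ee i))
      (fun k => line ((cd_pp k).differentiable one_ne_zero y) (ee i))
      (fun k => line ((ha k).differentiable one_ne_zero y) (ee i))
      (fun k => line ((hb k).differentiable one_ne_zero y) (ee i))
    have h2 := (line ((hη i).differentiable one_ne_zero y) (ee i)).unique h1
    simpa [pd] using h2
  have hs : ∀ y, ∑ i, pd (η i) i y = w4 (pp y) (fun i => a i y) (fun i j => pd (b j) i y)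
      - w4 (pp y) (fun i => b i y) fun i j => pd (a j) i y := fun y => by
    simp only [hd]
    exact div_eq _ _ _ (fun i k => pd (fun y => pp y k) i y) (fun i k => pd (a k) i y)
      (fun i k => pd (b k) i y) fun i j => pp_symm y i j
  have h0 : ∫ y, ∑ i, pd (η i) i y = 0 := by
    rw [integral_finsetSum _ fun i _ => (int_pd (hη i) (supp (hz i)) i).1]
    exact Finset.sum_eq_zero fun i _ => (int_pd (hη i) (supp (hz i)) i).2
  have z1 : ∀ (a b : Fin 4 → E → ℝ) y, chi y = 0 →
      w4 (pp y) (fun i => a i y) (fun i j => pd (b j) i y) = 0 := fun a b y h =>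
    w4_zero _ _ (pp_zero h)
  simp only [hs] at h0
  rw [integral_sub ((cont_H ha hb).integrable_of_hasCompactSupport (supp (z1 a b)))
    ((cont_H hb ha).integrable_of_hasCompactSupport (supp (z1 b a)))] at h0
  rw [H, H, J_eq (z1 a b), J_eq (z1 b a)]
  linarith

theorem J_sub {f g : E → ℝ} (hf : Continuous f) (hg : Continuous g) :
    J (fun y => f y - g y) = J f - J g :=
  integral_sub (hf.continuousOn.integrableOn_compact (isCompact_closedBall _ _))
    (hg.continuousOn.integrableOn_compact (isCompact_closedBall _ _))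

theorem J_congr {f g : E → ℝ} (h : ∀ y, f y = g y) : J f = J g := by rw [funext h]

/-- the volume of the ball -/
def vB : ℝ := (volume : Measure E).real (closedBall (0 : E) 2)

theorem vB_nonneg : 0 ≤ vB := measureReal_nonneg

theorem J_le {g : E → ℝ} {C : ℝ} (h : ∀ y, |g y| ≤ C) : |J g| ≤ C * vB := by
  rw [← Real.norm_eq_abs]
  exact norm_setIntegral_le_of_norm_le_const (isCompact_closedBall _ _).measure_lt_top
    fun y _ => h y

theorem J_cont {f : ℝ → E → ℝ} (hf : Continuous f.uncurry) : Continuous fun t => J (f t) :=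
  continuous_parametric_integral_of_continuous hf (isCompact_closedBall _ _)

theorem J_swap {f : ℝ → E → ℝ} (hf : Continuous f.uncurry) (T : ℝ) :
    ∫ t in (0 : ℝ)..T, J (f t) = J fun y => ∫ t in (0 : ℝ)..T, f t y := by
  refine intervalIntegral_integral_swap ?_
  rw [Measure.prod_restrict]
  exact (hf.continuousOn.integrableOn_compact
    (isCompact_uIcc.prod (isCompact_closedBall (0 : E) 2))).mono_set
      (prod_mono uIoc_subset_uIcc subset_rfl)

theorem J_pos {g : E → ℝ} (hg : Continuous g) (h0 : ∀ y, chi y = 0 → g y = 0)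
    (h1 : ∀ y, chi y ≠ 0 → 0 < g y) : 0 < J g := by
  obtain ⟨y, hy⟩ := chi_pos
  rw [J_eq h0]
  refine hg.integral_pos_of_hasCompactSupport_nonneg_nonzero (supp h0) (fun z => ?_) (h1 y hy).ne'
  by_cases h : chi z = 0
  · exact (h0 z h).ge
  · exact (h1 z h).le

end Pool.Agent.Lib.MP_399f8e_an.Gg
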